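import Pool.Agent.FTU.Stmts

/-!
# FTU, row DEN: approximation of displaced trial functions
-/

set_option autoImplicit false

open MeasureTheory

namespace Pool.Agent.FTU.H36

open Pool.Agent.FTU
open Pool.Agent.Helper49_Pauli
open Pool.Agent.MBX
open Pool.Agent.Loc (γn)

theorem freq_nonneg' (L : ℝ) (n : Fin 3 → ℤ) : 0 ≤ freq L n := Real.sqrt_nonneg _

theorem om_nonneg' {cut L : ℝ} (i : Mode cut L) : 0 ≤ om i := freq_nonneg' L i.1

theorem Hd_nonneg {cut L : ℝ} (alpha : ℝ) (P : Polarization L) (e : Mode cut L → ℝ)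
    (psi Psi : (Mode cut L → ℝ) → X3 → S2) (y : Mode cut L → ℝ) (x : X3) :
    0 ≤ Hd alpha P e psi Psi y x := by
  unfold Hd
  have h1 := nsq_nonneg (dsp e psi y x - Psi y x)
  have h2 := nsq_nonneg (dop (VV alpha P y) (dsp e psi y) x - DD alpha P Psi y x)
  have h3 : 0 ≤ ∑ i, om i * nsq (dY2 i (dsp e psi) y x - dY2 i Psi y x) :=
    Finset.sum_nonneg fun i _ => mul_nonneg (om_nonneg' i) (nsq_nonneg _)
  linarith

theorem den (hDE1 : De1Stmt) : DenStmt := by
  intro cut L alpha P psi e hpsi del hdel
  obtain ⟨Psi, C, R, h1, h2, h3, h4, h5⟩ := hDE1 cut L alpha P psi e hpsi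
  have key : Filter.Tendsto (fun n => ∫ x, ∫ y, Hd alpha P e psi (Psi n) y x ∂(γn (Mode cut L)))
      Filter.atTop (nhds (∫ _ : X3, (0 : ℝ))) := by
    refine tendsto_integral_of_dominated_convergence
      (fun x : X3 => (Metric.ball (0 : X3) R).indicator (fun _ => C) x) ?_ ?_ ?_ ?_
    · intro n
      exact (h2 n).integral_prod_right.aestronglyMeasurable
    · rw [integrable_indicator_iff measurableSet_ball]
      exact integrableOn_const (hs := measure_ball_lt_top.ne)
    · intro n
      refine Filter.Eventually.of_forall (fun x => ?_)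
      have h0 : 0 ≤ ∫ y, Hd alpha P e psi (Psi n) y x ∂(γn (Mode cut L)) :=
        integral_nonneg fun y => Hd_nonneg alpha P e psi (Psi n) y x
      rw [Real.norm_of_nonneg h0]
      by_cases hx : x ∈ Metric.ball (0 : X3) R
      · rw [Set.indicator_of_mem hx]
        exact h3 n x
      · rw [Set.indicator_of_notMem hx]
        have hx' : R ≤ ‖x‖ := by
          rw [mem_ball_zero_iff] at hx
          exact not_lt.1 hx
        have : (fun y => Hd alpha P e psi (Psi n) y x) = fun _ => 0 := by
          funext y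
          exact h4 n y x hx'
        rw [this, integral_zero]
    · exact Filter.Eventually.of_forall h5
  rw [integral_zero] at key
  obtain ⟨n, hn⟩ := (key.eventually (gt_mem_nhds hdel)).exists
  refine ⟨Psi n, h1 n, h2 n, ?_⟩
  have e1 : II (Hd alpha P e psi (Psi n)) =
      ∫ x, ∫ y, Hd alpha P e psi (Psi n) y x ∂(γn (Mode cut L)) := by
    unfold II
    exact integral_prod_symm _ (h2 n)
  rw [e1]
  exact hn.le

end Pool.Agent.FTU.H36
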